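import Mathlib

set_option autoImplicit false

namespace Pool.Agent.Results.MP_fedadc_co.Counter

open Finset MvPolynomial

/-- A tree of maximum degree four with a connected partition of every type. -/
def CPET {V : Type} [Fintype V] [DecidableEq V] (T : SimpleGraph V) [DecidableRel T.Adj] : Prop :=
  T.IsTree ∧ T.maxDegree = 4 ∧ ∀ l : Nat.Partition (Fintype.card V),
    ∃ P : Finpartition (univ : Finset V),
      (∀ B ∈ P.parts, (T.induce (B : Set V)).Connected) ∧ P.parts.val.map Finset.card = l.parts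

/-- The chromatic symmetric function of `T` in the variables indexed by `σ`. -/
noncomputable def csf {V : Type} [Fintype V] [DecidableEq V] (T : SimpleGraph V)
    [DecidableRel T.Adj] (σ : Type) [Fintype σ] [DecidableEq σ] : MvPolynomial σ ℚ :=
  ∑ κ ∈ univ.filter (fun κ : V → σ => ∀ u v, T.Adj u v → κ u ≠ κ v), ∏ v, X (κ v)

/-- `c` lists the coefficients of `csf T`, in `n = |V|` variables, in the basis `e_l`. -/
def IsExp {V : Type} [Fintype V] [DecidableEq V] (T : SimpleGraph V) [DecidableRel T.Adj]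
    (c : Nat.Partition (Fintype.card V) → ℚ) : Prop :=
  csf T (Fin (Fintype.card V)) = ∑ l, c l • esymmPart (Fin (Fintype.card V)) ℚ l

abbrev V := Fin 31

def p (v : V) : V := if v = 16 ∨ v = 28 ∨ v = 30 then 0 else ⟨v - 1, by omega⟩

def leg (v : V) : Fin 4 := if v < 16 then 0 else if v < 28 then 1 else if v < 30 then 2 else 3

def dep (v : V) : ℕ := if v < 16 then v else if v < 28 then v - 15 else if v < 30 then v - 27 else 1

def cap : Fin 4 → ℕ := ![15, 12, 2, 1]

def T : SimpleGraph V where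
  Adj u v := (u ≠ 0 ∧ p u = v) ∨ (v ≠ 0 ∧ p v = u)
  symm := ⟨fun _ _ => Or.symm⟩
  loopless := ⟨by decide⟩

instance : DecidableRel T.Adj := fun u v =>
  inferInstanceAs (Decidable ((u ≠ 0 ∧ p u = v) ∨ (v ≠ 0 ∧ p v = u)))

lemma pf : ∀ v : V, v ≠ 0 → dep (p v) + 1 = dep v ∧ (p v = 0 ∨ leg (p v) = leg v) := by decide

lemma conn (B : Finset V) (r : V) (hr : r ∈ B) (h : ∀ v ∈ B, v ≠ r → v ≠ 0 ∧ p v ∈ B) :
    (T.induce (B : Set V)).Connected := by
  refine (SimpleGraph.connected_iff_exists_forall_reachable _).2 ⟨⟨r, hr⟩, fun ⟨v, hv⟩ => ?_⟩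
  induction' e : dep v using Nat.strong_induction_on with n ih generalizing v
  by_cases hv' : v = r
  · subst hv'; rfl
  · obtain ⟨h1, h2⟩ := h v hv hv'
    exact (ih _ (by have := pf v h1; omega) _ h2 rfl).trans
      (SimpleGraph.Adj.reachable (Or.inr ⟨h1, rfl⟩))

def CP (S : Finset V) (M : Multiset ℕ) : Prop := ∃ P : Finpartition S,
  (∀ B ∈ P.parts, (T.induce (B : Set V)).Connected) ∧ P.parts.val.map Finset.card = M

def S (x : Fin 4 → ℕ) : Finset V := univ.filter fun v => dep v ≤ x (leg v)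

lemma base (x : Fin 4 → ℕ) : CP (S x) {(S x).card} := by
  have h0 : (0 : V) ∈ S x := mem_filter.2 ⟨mem_univ _, Nat.zero_le _⟩
  refine ⟨.indiscrete (ne_empty_of_mem h0), fun B hB => ?_, rfl⟩
  rw [mem_singleton.1 hB]
  refine conn _ 0 h0 fun v hv h => ⟨h, ?_⟩
  obtain ⟨h1, h2 | h2⟩ := pf v h
  · rwa [h2]
  · simp only [S, mem_filter, mem_univ, true_and, h2] at hv ⊢
    omega

lemma peel (x y : Fin 4 → ℕ) (j : Fin 4) (s : ℕ) (hs : 0 < s) (h1 : y j + s = x j)
    (h2 : ∀ i, i ≠ j → y i = x i) (hx : x j ≤ cap j) {M : Multiset ℕ} (h : CP (S y) M) :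
    CP (S x) (s ::ₘ M) := by
  obtain ⟨P, hP, rfl⟩ := h
  let B : Finset V := univ.filter fun v => leg v = j ∧ y j < dep v ∧ dep v ≤ x j
  have hB : ∀ v, v ∈ B ↔ leg v = j ∧ y j < dep v ∧ dep v ≤ x j := by simp [B]
  have hc : B.card = s := by
    have : ∀ j, ∀ t ∈ range 16, ∀ u ∈ range 16, t ≤ cap j →
      (univ.filter fun v => leg v = j ∧ u < dep v ∧ dep v ≤ t).card = t - u := by decide +kernel
    have c : cap j ≤ 15 := (by decide : ∀ j, cap j ≤ 15) j
    rw [this j _ (mem_range.2 (by omega)) _ (mem_range.2 (by omega)) hx]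
    omega
  obtain ⟨r, hr, hm⟩ := B.exists_min_image dep (card_pos.1 (hc ▸ hs))
  have d : Disjoint (S y) B := disjoint_left.2 fun v h1 h2 => by
    obtain ⟨h4, h3, -⟩ := (hB v).1 h2
    have := (mem_filter.1 h1).2
    rw [h4] at this
    omega
  have n : B ∉ P.parts := fun h => disjoint_left.1 d (P.le h hr) hr
  refine ⟨P.extend (c := S x) (ne_empty_of_mem hr) d ?_, fun C hC => ?_, ?_⟩
  · ext v
    simp only [S, sup_eq_union, mem_union, mem_filter, mem_univ, true_and, hB]
    by_cases e : leg v = j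
    · simp only [e, true_and]; omega
    · simp [e, h2 _ e]
  · rcases mem_insert.1 hC with rfl | hC
    · refine conn _ r hr fun v hv e => ?_
      have i : ∀ u v : V, leg u = leg v → dep u = dep v → u = v := by decide +kernel
      have := hm v hv
      rw [hB] at hr hv ⊢
      have e' := mt (i v r (hv.1.trans hr.1.symm)) e
      have h0 : v ≠ 0 := by rintro rfl; simp [dep] at hv
      obtain ⟨h3, h4 | h4⟩ := pf v h0
      · rw [h4] at h3
        simp only [dep] at h3
        exact absurd h3 (by change ¬ 0 + 1 = dep v; omega)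
      · exact ⟨h0, h4.trans hv.1, by omega, by omega⟩
    · exact hP C hC
  · change (insert B P.parts).val.map _ = _
    rw [insert_val_of_notMem n, Multiset.map_cons, hc]

def fit : List ℕ → ℕ → ℕ → ℕ → ℕ → Bool
  | [], _, _, _, _ => true
  | s :: l, a, b, c, d => (s ≤ d && fit l a b c (d - s)) || (s ≤ c && fit l a b (c - s) d) ||
      (s ≤ b && fit l a (b - s) c d) || (s ≤ a && fit l (a - s) b c d)

def cen : List ℕ → ℕ → ℕ → ℕ → ℕ → Bool
  | [], _, _, _, _ => false
  | s :: l, a, b, c, d => fit l a b c d || (s ≤ d && cen l a b c (d - s)) ||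
      (s ≤ c && cen l a b (c - s) d) || (s ≤ b && cen l a (b - s) c d) || (s ≤ a && cen l (a - s) b c d)

lemma peel4 {a b c d s : ℕ} {M : Multiset ℕ} (hs : 0 < s) (h : a ≤ 15 ∧ b ≤ 12 ∧ c ≤ 2 ∧ d ≤ 1) :
    (s ≤ d → CP (S ![a, b, c, d - s]) M → CP (S ![a, b, c, d]) (s ::ₘ M)) ∧
    (s ≤ c → CP (S ![a, b, c - s, d]) M → CP (S ![a, b, c, d]) (s ::ₘ M)) ∧
    (s ≤ b → CP (S ![a, b - s, c, d]) M → CP (S ![a, b, c, d]) (s ::ₘ M)) ∧
    (s ≤ a → CP (S ![a - s, b, c, d]) M → CP (S ![a, b, c, d]) (s ::ₘ M)) := by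
  refine ⟨fun e => peel _ _ 3 s hs ?_ ?_ h.2.2.2, fun e => peel _ _ 2 s hs ?_ ?_ h.2.2.1,
    fun e => peel _ _ 1 s hs ?_ ?_ h.2.1, fun e => peel _ _ 0 s hs ?_ ?_ h.1⟩ <;>
  first | exact Nat.sub_add_cancel e | (intro i; fin_cases i <;> simp)

lemma fit_ok (l : List ℕ) : ∀ a b c d m, fit l a b c d → (∀ s ∈ l, 0 < s) →
    a ≤ 15 ∧ b ≤ 12 ∧ c ≤ 2 ∧ d ≤ 1 → m + l.sum = a + b + c + d + 1 →
    CP (S ![a, b, c, d]) (m ::ₘ l) := by
  induction' l with s l ih
  · intro a b c d m _ _ h e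
    have : ∀ a ∈ range 16, ∀ b ∈ range 13, ∀ c ∈ range 3, ∀ d ∈ range 2,
      (S ![a, b, c, d]).card = a + b + c + d + 1 := by decide +kernel
    have := this a (mem_range.2 (by omega)) b (mem_range.2 (by omega)) c (mem_range.2 (by omega))
      d (mem_range.2 (by omega))
    rw [show m = _ from e, ← this]
    exact base _
  · intro a b c d m f hl h e
    rw [List.forall_mem_cons] at hl
    rw [List.sum_cons] at e
    obtain ⟨p1, p2, p3, p4⟩ := peel4 (M := m ::ₘ l) hl.1 h
    rw [← Multiset.cons_coe, Multiset.cons_swap]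
    simp only [fit, Bool.or_eq_true, Bool.and_eq_true, decide_eq_true_eq] at f
    rcases f with ((f | f) | f) | f
    exacts [p1 f.1 (ih _ _ _ _ _ f.2 hl.2 (by omega) (by omega)),
      p2 f.1 (ih _ _ _ _ _ f.2 hl.2 (by omega) (by omega)),
      p3 f.1 (ih _ _ _ _ _ f.2 hl.2 (by omega) (by omega)),
      p4 f.1 (ih _ _ _ _ _ f.2 hl.2 (by omega) (by omega))]

lemma cen_ok (l : List ℕ) : ∀ a b c d, cen l a b c d → (∀ s ∈ l, 0 < s) →
    a ≤ 15 ∧ b ≤ 12 ∧ c ≤ 2 ∧ d ≤ 1 → l.sum = a + b + c + d + 1 → CP (S ![a, b, c, d]) l := by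
  induction' l with s l ih
  · simp [cen]
  · intro a b c d f hl h e
    rw [List.forall_mem_cons] at hl
    rw [List.sum_cons] at e
    obtain ⟨p1, p2, p3, p4⟩ := peel4 (M := l) hl.1 h
    rw [← Multiset.cons_coe]
    simp only [cen, Bool.or_eq_true, Bool.and_eq_true, decide_eq_true_eq] at f
    rcases f with (((f | f) | f) | f) | f
    exacts [fit_ok l _ _ _ _ _ f hl.2 h e, p1 f.1 (ih _ _ _ _ f.2 hl.2 (by omega) (by omega)),
      p2 f.1 (ih _ _ _ _ f.2 hl.2 (by omega) (by omega)),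
      p3 f.1 (ih _ _ _ _ f.2 hl.2 (by omega) (by omega)),
      p4 f.1 (ih _ _ _ _ f.2 hl.2 (by omega) (by omega))]

def all : ℕ → ℕ → ℕ → List ℕ → Bool
  | 0, _, _, _ => false
  | f + 1, n, m, l => if n = 0 then cen l 15 12 2 1 else
      n < m || (all f (n - m) m (m :: l) && all f n (m + 1) l)

lemma all_ok (f : ℕ) : ∀ n m l (M : Multiset ℕ), all f n m l → (∀ x ∈ M, m ≤ x) → M.sum = n →
    0 < m → ∃ k : List ℕ, cen k 15 12 2 1 ∧ (k : Multiset ℕ) = M + l := by
  induction' f with f ih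
  · simp [all]
  intro n m l M h hM e hm
  rw [all] at h
  by_cases h0 : M = 0
  · subst h0
    exact ⟨l, by simpa [← e] using h, by simp⟩
  obtain ⟨x, hx⟩ := Multiset.exists_mem_of_ne_zero h0
  have := Multiset.le_sum_of_mem hx
  have := hM x hx
  rw [if_neg (by omega)] at h
  simp only [Bool.or_eq_true, Bool.and_eq_true, decide_eq_true_eq] at h
  obtain ⟨h1, h2⟩ := h.resolve_left (by omega)
  by_cases hm' : m ∈ M
  · obtain ⟨N, rfl⟩ := Multiset.exists_cons_of_mem hm'
    obtain ⟨k, k1, k2⟩ := ih _ _ _ N h1 (fun y hy => hM y (Multiset.mem_cons_of_mem hy))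
      (by rw [Multiset.sum_cons] at e; omega) hm
    exact ⟨k, k1, by rw [k2, ← Multiset.cons_coe, Multiset.add_cons, Multiset.cons_add]⟩
  · exact ih _ _ _ M h2 (fun y hy => (hM y hy).lt_of_ne fun h => hm' (h ▸ hy)) e (by omega)

lemma hom_e (σ : Type) [Fintype σ] (k : ℕ) : (esymm σ ℚ k).IsHomogeneous k := by
  refine IsHomogeneous.sum _ _ _ fun t ht => ?_
  have := IsHomogeneous.prod t (fun i => (X i : MvPolynomial σ ℚ)) (fun _ => 1)
    fun i _ => isHomogeneous_X ℚ i
  rwa [sum_const, smul_eq_mul, mul_one, (mem_powersetCard.1 ht).2] at this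

lemma hom_P (σ : Type) [Fintype σ] (M : Multiset ℕ) :
    (M.map (esymm σ ℚ)).prod.IsHomogeneous M.sum := by
  induction' M using Multiset.induction_on with a M ih
  · simpa using isHomogeneous_one σ ℚ
  · rw [Multiset.map_cons, Multiset.prod_cons, Multiset.sum_cons]
    exact (hom_e σ a).mul ih

lemma exists_exp (σ : Type) [Fintype σ] [DecidableEq σ] (n : ℕ) (f : MvPolynomial σ ℚ) (h1 : f.IsSymmetric)
    (h2 : f.IsHomogeneous n) : ∃ c : n.Partition → ℚ, f = ∑ l, c l • esymmPart σ ℚ l := by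
  obtain ⟨q, hq⟩ := esymmAlgHom_surjective ℚ (σ := σ) (n := Fintype.card σ) le_rfl ⟨f, h1⟩
  have e : f = homogeneousComponent n (aeval (fun i : Fin (Fintype.card σ) => esymm σ ℚ (i + 1)) q) := by
    rw [← esymmAlgHom_apply, hq]
    exact (homogeneousComponent_eq_self h2).symm
  have : f ∈ Submodule.span ℚ (Set.range fun l : n.Partition => esymmPart σ ℚ l) := by
    rw [e]
    clear hq e
    induction' q using MvPolynomial.induction_on' with d a p q hp hq
    · let M : Multiset ℕ := d.toMultiset.map fun i : Fin _ => i.1 + 1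
      have : aeval (fun i : Fin (Fintype.card σ) => esymm σ ℚ (i + 1)) (monomial d a) =
          a • (M.map (esymm σ ℚ)).prod := by
        rw [aeval_monomial, Algebra.smul_def, Multiset.map_map, Finset.prod_multiset_map_count]
        simp [Finsupp.prod]
      rw [this, map_smul, homogeneousComponent_of_mem (hom_P σ M)]
      refine Submodule.smul_mem _ _ ?_
      split_ifs with h
      · refine Submodule.subset_span ⟨⟨M, fun hi => ?_, h.symm⟩, rfl⟩
        obtain ⟨j, -, rfl⟩ := Multiset.mem_map.1 hi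
        omega
      · exact zero_mem _
    · rw [map_add, map_add]
      exact add_mem hp hq
  obtain ⟨c, hc⟩ := (Submodule.mem_span_range_iff_exists_fun ℚ).1 this
  exact ⟨c, hc.symm⟩

lemma csf_exp {V : Type} [Fintype V] [DecidableEq V] (T : SimpleGraph V) [DecidableRel T.Adj] :
    ∃ c, IsExp T c := by
  refine exists_exp _ _ _ (fun e => ?_) (IsHomogeneous.sum _ _ _ fun κ _ => ?_)
  · simp only [csf, map_sum, map_prod, rename_X]
    exact sum_equiv (Equiv.arrowCongr (Equiv.refl _) e) (by simp) (by simp)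
  · have := IsHomogeneous.prod univ (fun v => (X (κ v) : MvPolynomial _ ℚ)) (fun _ => 1)
      fun i _ => isHomogeneous_X ℚ _
    simpa using this

section
variable {σ R : Type} [Fintype σ] [DecidableEq σ] [Inhabited σ] [CommRing R]

def ex {n : ℕ} (κ : Fin n → σ) (i : ℕ) : σ := if h : i < n then κ ⟨i, h⟩ else default

def Z (q : ℕ → ℕ) (n : ℕ) (w : ℕ → σ → R) : R := ∑ κ : Fin n → σ, ∏ v ∈ range n,
  w v (ex κ v) * if v = 0 ∨ ex κ (q v) ≠ ex κ v then 1 else 0

lemma Z_succ (q : ℕ → ℕ) (hq : ∀ v, 0 < v → q v < v) (n : ℕ) (hn : 0 < n) (w : ℕ → σ → R) :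
    Z q (n + 1) w = Z q n fun v c => w v c * if q n = v then ∑ d ∈ univ.erase c, w n d else 1 := by
  unfold Z
  rw [← (Fin.snocEquiv fun _ => σ).sum_comp, Fintype.sum_prod_type_right]
  refine sum_congr rfl fun κ _ => ?_
  have h1 : ∀ d, ∀ v < n, ex (Fin.snocEquiv (fun _ => σ) (d, κ)) v = ex κ v := by
    intro d v hv
    simp only [ex, hv, dif_pos, Nat.lt_succ_of_lt hv]
    exact Fin.snoc_castSucc (α := fun _ => σ) d κ ⟨v, hv⟩
  have h2 : ∀ d, ex (Fin.snocEquiv (fun _ => σ) (d, κ)) n = d := by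
    intro d
    simp only [ex, Nat.lt_succ_self, dif_pos]
    exact Fin.snoc_last (α := fun _ => σ) d κ
  have h3 : ∀ d, ∏ v ∈ range n, (w v (ex (Fin.snocEquiv (fun _ => σ) (d, κ)) v) *
      if v = 0 ∨ ex (Fin.snocEquiv (fun _ => σ) (d, κ)) (q v) ≠
        ex (Fin.snocEquiv (fun _ => σ) (d, κ)) v then 1 else 0) =
      ∏ v ∈ range n, w v (ex κ v) * if v = 0 ∨ ex κ (q v) ≠ ex κ v then 1 else 0 := by
    refine fun d => prod_congr rfl fun v hv => ?_
    rw [mem_range] at hv
    rw [h1 d v hv]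
    rcases v.eq_zero_or_pos with rfl | h
    · simp
    · rw [h1 d _ ((hq v h).trans hv)]
  simp only [prod_range_succ, h2, h1 _ _ (hq n hn), h3, ← mul_sum]
  simp only [mul_right_comm (w _ _) (ite (q n = _) _ _)]
  rw [prod_mul_distrib (g := fun v => ite (q n = v) _ _), prod_ite_eq, if_pos (mem_range.2 (hq n hn)),
    ← filter_ne, sum_filter]
  simp [hn.ne']

lemma Z_all (q : ℕ → ℕ) (hq : ∀ v, 0 < v → q v < v) (N : ℕ) (x : σ → R) (G : ℕ → σ → R)
    (hG : ∀ n ∈ Ico 1 N, ∀ c, G n c =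
      ∑ d ∈ univ.erase c, x d * ∏ u ∈ Ico (n + 1) N, if q u = n then G u d else 1)
    (n : ℕ) (hn : 0 < n) (h : n ≤ N) :
    Z q n (fun v c => x c * ∏ u ∈ Ico n N, if q u = v then G u c else 1) =
      ∑ c, x c * ∏ u ∈ Ico 1 N, if q u = 0 then G u c else 1 := by
  induction' n, hn using Nat.le_induction with n hn ih
  · rw [Z, ← (Equiv.funUnique (Fin 1) σ).symm.sum_comp]
    simp [ex]
  · rw [Z_succ q hq n hn, ← ih (by omega)]
    congr! 3 with v c
    rw [← hG n (mem_Ico.2 ⟨hn, h⟩), prod_eq_prod_Ico_succ_bot h, mul_assoc, mul_comm (ite _ _ _)]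

end

abbrev D := DualNumber ℚ

instance : DecidableEq D := inferInstanceAs (DecidableEq (ℚ × ℚ))

def mk (a : ℤ × ℤ) : D := ((a.1, a.2) : ℚ × ℚ)

def x (c : V) : D := if c = 0 then mk (0, -2) else if c = 1 then mk (1, 1) else
  if c = 2 then mk (-1, 1) else 0

def q (v : ℕ) : ℕ := if v = 16 ∨ v = 28 ∨ v = 30 then 0 else v - 1

def tab : List (List (ℤ × ℤ)) := [[(0, 2), (-1, -1), (1, -1), (0, 0)],
  [(-2, 0), (-1, 2), (-1, -2), (-2, 0)],
  [(0, 2), (1, 5), (-1, 5), (0, 6)],
  [(2, 0), (1, -6), (1, 6), (2, 0)],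
  [(0, -10), (-1, -9), (1, -9), (0, -14)],
  [(-2, 0), (-1, 10), (-1, -10), (-2, 0)],
  [(0, 18), (1, 13), (-1, 13), (0, 22)],
  [(2, 0), (1, -14), (1, 14), (2, 0)],
  [(0, -26), (-1, -17), (1, -17), (0, -30)],
  [(-2, 0), (-1, 18), (-1, -18), (-2, 0)],
  [(0, 34), (1, 21), (-1, 21), (0, 38)],
  [(2, 0), (1, -22), (1, 22), (2, 0)],
  [(0, -42), (-1, -25), (1, -25), (0, -46)],
  [(-2, 0), (-1, 26), (-1, -26), (-2, 0)],
  [(0, 50), (1, 29), (-1, 29), (0, 54)]]

def G (v : ℕ) (c : V) : D := mk (((tab.getD (if v < 16 then 15 - v else if v < 28 then 27 - v else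
  29 - v) []).getD (min c 3) 0))

lemma val : aeval x (csf T V) = mk (0, 14) := by
  have := Z_all q (fun v hv => by unfold q; split_ifs <;> omega) 31 x G (by decide +kernel) 31
    (by omega) le_rfl
  rw [show mk (0, 14) = ∑ c, x c * ∏ u ∈ Ico 1 31, if q u = 0 then G u c else 1 by decide +kernel,
    ← this]
  simp only [csf, map_sum, map_prod, aeval_X, Z, Ico_self, prod_empty, mul_one]
  rw [sum_filter]
  refine sum_congr rfl fun κ _ => ?_
  have h1 : ∀ v : V, ex κ v = κ v := fun v => dif_pos v.2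
  have h2 : ∀ v : V, q v = p v := by decide
  rw [← Fin.prod_univ_eq_prod_range (fun v => x (ex κ v) * _)]
  simp only [h1, h2]
  rw [prod_mul_distrib, prod_boole, mul_boole]
  refine @if_congr _ _ _ (_) (_) _ _ _ _ ⟨fun h v _ => ?_, fun h u v e => ?_⟩ rfl rfl
  · by_cases e : v = 0
    · exact Or.inl (by rw [e]; rfl)
    · exact Or.inr (h _ _ (Or.inr ⟨e, rfl⟩))
  · rcases e with ⟨e, rfl⟩ | ⟨e, rfl⟩
    · exact ((h u (mem_univ _)).resolve_left fun h => e (Fin.ext h)).symm
    · exact (h v (mem_univ _)).resolve_left fun h => e (Fin.ext h)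

def E (k : ℕ) : D := if k = 0 then 1 else if k = 2 then -1 else if k = 3 then mk (0, 2) else 0

lemma es0 (s : Multiset D) (m k : ℕ) : (s + .replicate m 0).esymm k = s.esymm k := by
  induction' m with m ih
  · simp
  · rw [Multiset.replicate_succ, Multiset.add_cons, ← ih]
    cases k <;> simp [Multiset.esymm, Multiset.powersetCard_cons]

lemma es (k : ℕ) : aeval x (esymm V ℚ k) = E k := by
  rw [aeval_esymm_eq_multiset_esymm, show univ.val.map x =
    {mk (0, -2), mk (1, 1), mk (-1, 1)} + .replicate 28 0 by decide +kernel, es0]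
  by_cases h : k < 4
  · interval_cases k <;> decide +kernel
  · rw [Multiset.esymm, Multiset.powersetCard_eq_empty _ (by simp; omega), E, if_neg (by omega),
      if_neg (by omega), if_neg (by omega)]
    rfl

lemma key (M : Multiset ℕ) (h : ∀ k ∈ M, 0 < k) (e : M.sum = 31) :
    (M.map E).prod = if M = 3 ::ₘ .replicate 14 2 then mk (0, 2) else 0 := by
  split_ifs with h0
  · rw [h0]; decide +kernel
  have z : ∀ (a : D) (N : Multiset ℕ), (∀ k ∈ N, k ≠ 2 → a * E k = 0) →
      N ≠ .replicate N.card 2 → a * (N.map E).prod = 0 := by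
    intro a N h1 h2
    rw [Ne, Multiset.eq_replicate_card] at h2
    push Not at h2
    obtain ⟨k, hk, h2⟩ := h2
    obtain ⟨N, rfl⟩ := Multiset.exists_cons_of_mem hk
    rw [Multiset.map_cons, Multiset.prod_cons, ← mul_assoc, h1 k hk h2, zero_mul]
  by_cases h3 : 3 ∈ M
  · obtain ⟨N, rfl⟩ := Multiset.exists_cons_of_mem h3
    rw [Multiset.map_cons, Multiset.prod_cons]
    refine z _ N (fun k hk h2 => ?_) fun h2 => h0 ?_
    · have := h k (Multiset.mem_cons_of_mem hk)
      change mk (0, 2) * E k = 0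
      rw [E, if_neg this.ne', if_neg h2]
      split_ifs
      · decide +kernel
      · exact mul_zero _
    · rw [h2, Multiset.sum_cons, Multiset.sum_replicate, smul_eq_mul] at e
      rw [h2, show N.card = 14 by omega]
  · rw [← one_mul (Multiset.prod _)]
    refine z _ M (fun k hk h2 => ?_) fun h2 => ?_
    · rw [E, if_neg (h k hk).ne', if_neg h2, if_neg (by rintro rfl; exact h3 hk), mul_zero]
    · rw [h2, Multiset.sum_replicate, smul_eq_mul] at e
      omega

theorem result : ∃ (T : SimpleGraph (Fin 31)) (_ : DecidableRel T.Adj), CPET T ∧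
    (∃ c, IsExp T c) ∧ (∃ l : Nat.Partition 31, l.parts = 3 ::ₘ Multiset.replicate 14 2) ∧
    ∀ c, IsExp T c → ∀ l, l.parts = 3 ::ₘ Multiset.replicate 14 2 → c l = 7 := by
  refine ⟨T, inferInstance, ⟨?_, by decide +kernel, fun l => ?_⟩, csf_exp T,
    ⟨⟨3 ::ₘ .replicate 14 2, fun h => by
      rw [Multiset.mem_cons, Multiset.mem_replicate] at h; omega, by decide⟩, rfl⟩,
    fun c hc l hl => ?_⟩
  · rw [SimpleGraph.isTree_iff_connected_and_card, Nat.card_eq_fintype_card,
      ← SimpleGraph.edgeFinset_card]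
    refine ⟨?_, by simp only [Nat.card_eq_fintype_card]; decide +kernel⟩
    have := conn univ 0 (mem_univ _) fun v _ h => ⟨h, mem_univ _⟩
    rw [coe_univ] at this
    exact (SimpleGraph.induceUnivIso T).connected_iff.1 this
  · obtain ⟨k, k1, k2⟩ := all_ok 64 31 1 [] l.parts (by decide +kernel) (fun x => l.parts_pos)
      l.parts_sum one_pos
    have e : (k : Multiset ℕ) = l.parts := by simpa using k2
    have := cen_ok k _ _ _ _ k1 (fun s hs => l.parts_pos (e ▸ hs)) (by omega)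
      (by rw [← Multiset.sum_coe, e, l.parts_sum]; rfl)
    rwa [e, show S ![15, 12, 2, 1] = univ by decide +kernel] at this
  · have h : csf T V = ∑ l, c l • esymmPart V ℚ l := hc
    have := val
    rw [h, map_sum, sum_eq_single l] at this
    · rw [map_smul, esymmPart, map_multiset_prod, Multiset.map_map] at this
      simp only [Function.comp_def, es] at this
      rw [key _ (fun _ => l.parts_pos) l.parts_sum, if_pos hl] at this
      have := congrArg TrivSqZeroExt.snd this
      simp only [TrivSqZeroExt.snd_smul, mk, TrivSqZeroExt.snd_mk, smul_eq_mul] at this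
      push_cast at this
      linarith
    · intro m _ hm
      rw [map_smul, esymmPart, map_multiset_prod, Multiset.map_map]
      simp only [Function.comp_def, es]
      rw [key _ (fun _ => m.parts_pos) m.parts_sum, if_neg fun h => hm (Nat.Partition.ext (h.trans hl.symm)),
        smul_zero]
    · simp

end Pool.Agent.Results.MP_fedadc_co.Counter
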